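import Pool.Agent.V8H47.ALB.Main

/-!
# Alternating linear space machines and the contents of their pushdown stores

`sigLP k α` is level `k` of the alternation hierarchy of linear space machines with an auxiliary
pushdown store in exponential time, `sigLBA k α` the same for machines without a store, and
`sigLPIn R k α` the same for machines whose store contents always belong to the set of words `R`.
(Level `2` of `sigLP` is `NE`, by the exponential time analogue of a theorem of Jenner and Kirsig,
and all levels of `sigLBA` are `LBA = NSPACE(n)`, by the theorem of Immerman and Szelepcsényi; this
is not used below.)
-/

namespace Pool.Agent.Results.MP_b7da94_lc.AlternatingStoreContents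

open Pool.Agent.V8H47.MH Pool.Agent.V8H47.LB

/-- **Theorem.** Let `R` be a regular set of words over a finite pushdown alphabet, with `[] ∈ R`.
If the number of words of length `n` all of whose prefixes are in `R` is polynomially bounded, then
on every level of the alternation hierarchy (in particular on the level of `NE`) the machines with
store contents in `R` are as powerful as linear space machines without any store. Otherwise they
are on every level as powerful as the machines with an unrestricted store. -/
theorem result {Γ : Type} [Finite Γ] (R : Language Γ) (hreg : R.IsRegular) (h0 : [] ∈ R) :
    (PolyGrowth (R : Set (List Γ)) →
      ∀ (k : ℕ) (α : Type), sigLPIn (R : Set (List Γ)) k α = sigLBA k α) ∧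
    (¬ PolyGrowth (R : Set (List Γ)) →
      ∀ (k : ℕ) (α : Type), sigLPIn (R : Set (List Γ)) k α = sigLP k α) :=
  alp_dichotomy hreg h0

end Pool.Agent.Results.MP_b7da94_lc.AlternatingStoreContents
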