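import Pool.Agent.V8H47.LB.PDefs
import Pool.Agent.V8H47.LB.PMain

/-!
# Linear space and the contents of an auxiliary pushdown store

The definitions used in the statement are in `Pool.Agent.V8H47.LB.PDefs` (machines, `dlba`, `lba`,
`dAux`, `nAux`, `dAuxIn`, `nAuxIn`) and `Pool.Agent.V8H47.MH.ContDefs` (`PolyGrowth`).

Let `R` be a regular language over the pushdown alphabet which contains the empty word. We only
allow linear space machines with an auxiliary pushdown store all of whose store contents, read
from the bottom to the top, are in `R`. Let `g n` be the number of words of length `n` all of whose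
prefixes are in `R`.

* If `g` is bounded by a polynomial then the store does not help: the deterministic machines
  accept exactly the languages in `DSPACE(n)`, the nondeterministic ones exactly those in
  `NSPACE(n)`.
* Otherwise the restriction does not matter: they accept exactly the languages accepted by linear
  space machines with arbitrary auxiliary pushdown stores. (By Cook's theorem, which is not proved
  here, this class is `E`, in both the deterministic and the nondeterministic case.)

Idea. If `g` is not polynomially bounded then the automaton of `R` has two different cycles through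
one state, and any store can be coded in `R`, symbol by symbol, with the top symbol kept in the
finite control. Otherwise all the strongly connected components of the automaton of `R` are cycles,
and a content is described by a bounded number of counters. Accepting runs can be chosen with
height `c ^ n` at most, and counters up to `c ^ n` are kept in base `k` on a track of the tape; for
this simulation the machine stays deterministic if it was.
-/

namespace Pool.Agent.Results.MP_b7da94_lc.StoreContents

open Pool.Agent.V8H47.MH Pool.Agent.V8H47.LB

/-- The dichotomy for the contents of the store of linear space machines. -/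
theorem result {Γ : Type} [Finite Γ] (R : Set (List Γ)) (hreg : Language.IsRegular R)
    (h0 : [] ∈ R) :
    (PolyGrowth R → ∀ α : Type, dAuxIn R α = dlba α ∧ nAuxIn R α = lba α) ∧
    (¬ PolyGrowth R → ∀ α : Type, dAuxIn R α = dAux α ∧ nAuxIn R α = nAux α) := by
  obtain ⟨h1, h2⟩ := lp_dichotomy (R := R) hreg h0
  constructor
  · intro hp α
    constructor
    · ext L
      constructor
      · rintro ⟨M, hd, hM, rfl⟩
        obtain ⟨M', h3, h4⟩ := h2 hp α M hM
        exact ⟨M', h3 hd, h4⟩
      · rintro ⟨M, hd, rfl⟩
        exact ⟨M.toSt Γ, det_toSt hd, toSt_contents h0, toSt_lang⟩
    · ext L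
      constructor
      · rintro ⟨M, hM, rfl⟩
        obtain ⟨M', _, h4⟩ := h2 hp α M hM
        exact ⟨M', h4⟩
      · rintro ⟨M, rfl⟩
        exact ⟨M.toSt Γ, toSt_contents h0, toSt_lang⟩
  · intro hp α
    constructor
    · ext L
      constructor
      · rintro ⟨M, hd, _, rfl⟩
        exact ⟨Γ, inferInstance, M, hd, rfl⟩
      · rintro ⟨Δ, _, M, hd, rfl⟩
        obtain ⟨M', h3, h4, h5⟩ := h1 hp α Δ M
        exact ⟨M', h3 hd, h5, h4⟩
    · ext L
      constructor
      · rintro ⟨M, _, rfl⟩
        exact ⟨Γ, inferInstance, M, rfl⟩
      · rintro ⟨Δ, _, M, rfl⟩
        obtain ⟨M', _, h4, h5⟩ := h1 hp α Δ M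
        exact ⟨M', h5, h4⟩

end Pool.Agent.Results.MP_b7da94_lc.StoreContents
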