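import Pool.Agent.V8H47.LB.Main

/-!
# Linear space with a pushdown store that obeys a regular protocol: `E` or `NSPACE(n)`

Definitions: `Pool.Agent.V8H47.LB.Defs` (nondeterministic linear space machines with output,
`linPre`, `nspace`, `auxPDA`) and `Pool.Agent.V8H47.NLK.RatDefs` (`dyck`, `Rich`).

A nondeterministic linear space machine with an auxiliary pushdown store is described as a linear
space machine which emits the sequence of its pushes and pops (brackets over the pushdown alphabet
`S`); the sequence has to lead from the empty store to the empty store, i.e. to belong to the
semi-Dyck language `D = dyck S`. By a theorem of Cook these machines accept exactly the languages
in `E`. Here a regular language `R` (the protocol) is prescribed, and only sequences in `D ∩ R` are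
allowed.

* If `R` is rich then all languages in `E` are still accepted.
* Otherwise only the languages in `NSPACE(n)` are accepted (and exactly these if `D ∩ R` is not
  empty).

`R` is rich if it contains `p N e`, where `N → t | x N x' | y N y' | a N b N c`, for some words such
that the whole expression is compatible with the stores (see `Rich`), and `x`, `y` push two
different contents of the same length.

Idea of the proof of the second part. The steps of the machine (with the state of an automaton
for `R`) form a pushdown system. A balanced run has a type: the pair of the states of the automaton
for `R` at its beginning and its end. If `R` is not rich then every type which can occur twice in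
disjoint parts of a run of the same type has only one possible store content for each height, so
that a counter replaces the store; the other types lead to runs along a spine. By induction on the
number of types below a given one, the existence of balanced runs is expressed with finitely many
nested transitive closures, which are verified by linear space machines (flowcharts of sweeps of
the tape, with further tracks, and counters of exponential size on tracks). In the first part a
rational transduction maps `D ∩ R` onto any other semi-Dyck language, and a machine can be composed
with the inverse of a rational transduction.
-/

namespace Pool.Agent.Results.MP_b7da94_lc.StoreProtocols

open Pool.Agent.V8H47.LB Pool.Agent.V8H47.NLK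

theorem result :
    -- (1) rich protocols: the same languages as without any restriction, i.e. `E`
    (∀ (S : Type) [Finite S] [DecidableEq S] (R : Language (S × Bool)), R.IsRegular → Rich R →
      ∀ α : Type, linPre (dyck S ⊓ R) α = auxPDA α) ∧
    -- (2) other protocols: only languages in `NSPACE(n)`, and all of them if `D ∩ R ≠ ∅`
    (∀ (S : Type) [Finite S] [DecidableEq S] (R : Language (S × Bool)), R.IsRegular → ¬ Rich R →
      ∀ α : Type, linPre (dyck S ⊓ R) α ⊆ nspace α ∧
        ((∃ v, v ∈ dyck S ⊓ R) → linPre (dyck S ⊓ R) α = nspace α)) :=
  ⟨fun _ _ _ _ hR h α => rich_case hR h α, fun _ _ _ _ hR h α => poor_case hR h α⟩

end Pool.Agent.Results.MP_b7da94_lc.StoreProtocols
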