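import Pool.Agent.V8H47.TS.Main

/-!
# Shapes of computation trees: `NSPACE(n)` or `E`

Definitions: `Pool.Agent.V8H47.TS.Defs` (binary trees, the Strahler number, regular sets of trees,
alternating linear space machines, `altIn`, `altLin`) and `Pool.Agent.V8H47.LB.Defs` (`nspace`).

An alternating linear space machine has existential steps and universal branchings into two copies
of the machine; an accepting computation is a finite tree. The universal branchings carry labels
from a finite alphabet `X`, so an accepting computation defines a binary tree with labels. By the
theorem of Chandra, Kozen and Stockmeyer these machines accept exactly the languages in `E`, and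
without universal branchings exactly those in `NSPACE(n)`. Here a regular set `T` of trees is given
and only accepting computations whose tree is in `T` are admitted.

* If the Strahler numbers of the trees in `T` are bounded, exactly the languages in `NSPACE(n)` are
  accepted.
* Otherwise exactly the languages of all alternating linear space machines are accepted.

So nothing lies between, and for `T` of the second kind the question `LBA = E` does not depend
on `T`.

Idea. If the Strahler numbers are not bounded, a pigeonhole argument gives a state `v` of the tree
automaton and a context with two holes which leads from `v`, `v` to `v`; an arbitrary universal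
branching is replaced by this context. If they are bounded, one guesses the states of the automaton
from the root to the leaves and follows at each branching the copy with the larger Strahler number,
while the other one is verified by a machine for a smaller bound; this is a transitive closure of a
relation which is verified in linear space.
-/

namespace Pool.Agent.Results.MP_b7da94_lc.TreeShapes

open Pool.Agent.V8H47.TS Pool.Agent.V8H47.LB

/-- The dichotomy for the shapes of computation trees. -/
theorem result (X : Type) [Finite X] (α : Type) :
    (∀ T : Set (BTree X), IsRegularTree T → T.Nonempty →
      ((∃ k, ∀ t ∈ T, t.strahler ≤ k) → altIn T α = nspace α) ∧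
      ((¬ ∃ k, ∀ t ∈ T, t.strahler ≤ k) → altIn T α = altLin α)) ∧
    (∀ (k : ℕ) (M : AM α X), (∀ w ∈ M.lang Set.univ, w ∈ M.lang {t | t.strahler ≤ k}) →
      M.lang Set.univ ∈ nspace α) := by
  refine ⟨fun T hT hne => ⟨altIn_thin hT hne, altIn_thick hT⟩, fun k M hM => ?_⟩
  have h1 : M.lang Set.univ = M.lang {t | t.strahler ≤ k} :=
    Set.Subset.antisymm hM (fun w ⟨t, _, ht⟩ => ⟨t, trivial, ht⟩)
  rw [h1]
  exact altIn_subset_nspace (isRegular_strahler X k) ⟨k, fun t ht => ht⟩ ⟨M, rfl⟩

end Pool.Agent.Results.MP_b7da94_lc.TreeShapes
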